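import Pool.Agent.KDS.StmtsB
import Pool.Agent.Helper98_SZT.CNT

/-!
# KDS squad (MP_160b6c_nt), row EXC: few exceptional multiples
-/

set_option autoImplicit false

namespace Pool.Agent.KDS.H76

open Polynomial NumberField H58Q Pool.Agent.SZT Pool.Agent.KDT Pool.Agent.KDS

/-- multiplication by `c` modulo `N` is at most `c` to one on `[0, N)` -/
theorem fibre_card (N c r : ℕ) (hc : 0 < c) (s : Finset ℕ) (hs : ∀ k ∈ s, k < N) :
    (s.filter fun k => c * k % N = r).card ≤ c := by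
  classical
  have h1 : ((s.filter fun k => c * k % N = r).image fun k => c * k / N).card ≤
      (Finset.range c).card := by
    refine Finset.card_le_card ?_
    intro q hq
    rw [Finset.mem_image] at hq
    obtain ⟨k, hk, rfl⟩ := hq
    rw [Finset.mem_filter] at hk
    rw [Finset.mem_range]
    have hkN := hs k hk.1
    refine Nat.div_lt_of_lt_mul ?_
    rw [mul_comm N c]
    exact Nat.mul_lt_mul_of_pos_left hkN hc
  rw [Finset.card_range] at h1
  refine le_trans (le_of_eq ?_) h1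
  rw [Finset.card_image_of_injOn]
  intro k hk l hl hkl
  rw [Finset.mem_coe, Finset.mem_filter] at hk hl
  have h2 : c * k / N = c * l / N := hkl
  have h3 := Nat.mod_add_div (c * k) N
  have h4 := Nat.mod_add_div (c * l) N
  rw [hk.2, h2] at h3
  rw [hl.2] at h4
  exact Nat.eq_of_mul_eq_mul_left hc (h3.symm.trans h4)

/-- preimages of a small set under multiplication by `c` modulo `N` -/
theorem pre_card (N c : ℕ) (hc : 0 < c) (s t : Finset ℕ) (hs : ∀ k ∈ s, k < N)
    (hst : ∀ k ∈ s, c * k % N ∈ t) : s.card ≤ c * t.card := by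
  classical
  exact Finset.card_le_mul_card_image_of_maps_to hst c fun r _ => fibre_card N c r hc s hs

/-- **Row EXC.** -/
theorem exc (hVGC : VgcStatement) (hUNQ : UnqStatement) : ExcStatement := by
  classical
  intro i
  refine ⟨40 * 2 ^ (i + 1), by positivity, ?_⟩
  intro K _ _ f I N A B hf hd hsq hI hN hpr hAB
  have : Fact (Odd f.natDegree) := ⟨by rw [hd]; decide⟩
  have hIN : (I ^ N).IsPrincipal := (hpr N).2 (dvd_refl N)
  have hmod : ∀ k, A k = A (k % N) ∧ B k = B (k % N) := by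
    intro k
    obtain ⟨h1, h2, h3⟩ := hAB k
    obtain ⟨h4, h5, h6⟩ := hAB (k % N)
    exact hUNQ K f (A k) (B k) (A (k % N)) (B (k % N)) two_ne_zero hsq hd h1 h4 h2 h5
      (H98.sc_trans h3 (H98.sc_trans (H98.sc_mod hI hIN k) (H98.sc_symm h6)))
  have hVG : ∀ k, VG f (A k) (B k) ↔ VG f (A (k % N)) (B (k % N)) := by
    intro k
    rw [← (hmod k).1, ← (hmod k).2]
  have hbad := hVGC K f I N A B hf hd hsq hI hN hpr hAB
  let t : Finset ℕ := (Finset.range N).filter fun k => ¬ VG f (A k) (B k)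
  have ht : ({k : ℕ | k < N ∧ ¬ VG f (A k) (B k)}.ncard : ℝ) = t.card := by
    have h1 : {k : ℕ | k < N ∧ ¬ VG f (A k) (B k)} = (t : Set ℕ) := by
      ext k
      simp [t]
    rw [h1, Set.ncard_coe_finset]
  rw [ht] at hbad
  let e : ℕ → Finset ℕ := fun a =>
    (Finset.range N).filter fun k => ¬ VG f (A (2 ^ a * k)) (B (2 ^ a * k))
  have he : ∀ a, (e a).card ≤ 2 ^ a * t.card := by
    intro a
    refine pre_card N (2 ^ a) (by positivity) (e a) t ?_ ?_
    · intro k hk
      exact Finset.mem_range.1 (Finset.mem_filter.1 hk).1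
    · intro k hk
      have hk2 := (Finset.mem_filter.1 hk).2
      rw [hVG] at hk2
      exact Finset.mem_filter.2 ⟨Finset.mem_range.2 (Nat.mod_lt _ hN), hk2⟩
  have hset : {k : ℕ | k < N ∧ ¬ ∀ a ≤ i, VG f (A (2 ^ a * k)) (B (2 ^ a * k))} ⊆
      (((Finset.range (i + 1)).biUnion e : Finset ℕ) : Set ℕ) := by
    rintro k ⟨hk, hk2⟩
    push Not at hk2
    obtain ⟨a, ha, hka⟩ := hk2
    rw [Finset.mem_coe, Finset.mem_biUnion]
    exact ⟨a, Finset.mem_range.2 (by omega), Finset.mem_filter.2 ⟨Finset.mem_range.2 hk, hka⟩⟩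
  have h1 : {k : ℕ | k < N ∧ ¬ ∀ a ≤ i, VG f (A (2 ^ a * k)) (B (2 ^ a * k))}.ncard ≤
      ((Finset.range (i + 1)).biUnion e).card := by
    rw [← Set.ncard_coe_finset]
    exact Set.ncard_le_ncard hset (Finset.finite_toSet _)
  have h2 : ((Finset.range (i + 1)).biUnion e).card ≤ ∑ a ∈ Finset.range (i + 1), 2 ^ a * t.card :=
    le_trans Finset.card_biUnion_le (Finset.sum_le_sum fun a _ => he a)
  have h3 : ∑ a ∈ Finset.range (i + 1), 2 ^ a * t.card ≤ 2 ^ (i + 1) * t.card := by
    rw [← Finset.sum_mul]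
    exact Nat.mul_le_mul_right _ (le_of_lt (by
      have := Nat.geomSum_eq (le_refl 2) (i + 1)
      have h5 : 0 < 2 ^ (i + 1) := by positivity
      omega))
  have h4 : ({k : ℕ | k < N ∧ ¬ ∀ a ≤ i, VG f (A (2 ^ a * k)) (B (2 ^ a * k))}.ncard : ℝ) ≤
      2 ^ (i + 1) * (t.card : ℝ) := by
    exact_mod_cast h1.trans (h2.trans h3)
  have h5 : (0 : ℝ) < 2 ^ (i + 1) := by positivity
  nlinarith [mul_le_mul_of_nonneg_left hbad h5.le]

end Pool.Agent.KDS.H76
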